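import Pool.Agent.W793.SCH.Stm

/-!
# The alternating sum over the subsets removes the pairings inside the fields
-/

namespace Pool.Agent.W270.SCH

open Pool.Agent.W793.SCH

variable {ι : Type*} [DecidableEq ι]

omit [DecidableEq ι] in
theorem haf_nil (A : ι → ι → ℝ) : haf A ([] : List ι) = 1 := by
  rw [haf]

theorem haf_cons (A : ι → ι → ℝ) (a : ι) (l : List ι) (h : l.Nodup) :
    haf A (a :: l) = ∑ b ∈ l.toFinset, A a b * haf A (l.erase b) := by
  rw [haf]
  refine Finset.sum_bij (fun i _ => l.get i) ?_ ?_ ?_ ?_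
  · intro i _
    simp
  · intro i _ j _ hij
    exact (List.Nodup.get_inj_iff h).1 hij
  · intro b hb
    obtain ⟨i, hi⟩ := List.get_of_mem (List.mem_toFinset.1 hb)
    exact ⟨i, Finset.mem_univ _, hi⟩
  · intro i _
    rw [h.erase_get i]

theorem haf_cons_cons (A : ι → ι → ℝ) (a b : ι) (l : List ι) (h : (b :: l).Nodup) :
    haf A (a :: b :: l) = A a b * haf A l +
      ∑ c ∈ l.toFinset, A a c * haf A (b :: l.erase c) := by
  have hb : b ∉ l := (List.nodup_cons.1 h).1
  rw [haf_cons A a _ h, List.toFinset_cons, Finset.sum_insert (by simpa using hb)]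
  congr 1
  · rw [List.erase_cons_head]
  · refine Finset.sum_congr rfl fun c hc => ?_
    have : b ≠ c := fun hbc => hb (hbc ▸ List.mem_toFinset.1 hc)
    rw [List.erase_cons_tail (by simpa using this)]

theorem haf_congr (A A' : ι → ι → ℝ) : ∀ (n : ℕ) (l : List ι), l.length = n → l.Nodup →
    (∀ u ∈ l, ∀ v ∈ l, u ≠ v → A u v = A' u v) → haf A l = haf A' l := by
  intro n
  induction n using Nat.strong_induction_on with
  | _ n ih =>
    intro l hl hn hA
    cases l with
    | nil => rw [haf_nil, haf_nil]
    | cons a l =>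
      have hn' := List.nodup_cons.1 hn
      rw [haf_cons A a l hn'.2, haf_cons A' a l hn'.2]
      refine Finset.sum_congr rfl fun b hb => ?_
      have hb' : b ∈ l := List.mem_toFinset.1 hb
      have hab : a ≠ b := fun h => hn'.1 (h ▸ hb')
      rw [hA a List.mem_cons_self b (List.mem_cons_of_mem _ hb') hab]
      congr 1
      refine ih (l.erase b).length ?_ (l.erase b) rfl (hn'.2.erase b) ?_
      · rw [List.length_erase_of_mem hb']
        simp only [List.length_cons] at hl
        omega
      · intro u hu v hv huv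
        exact hA u (List.mem_cons_of_mem _ (List.mem_of_mem_erase hu)) v
          (List.mem_cons_of_mem _ (List.mem_of_mem_erase hv)) huv

theorem haf_swap (A : ι → ι → ℝ) (hA : ∀ u v, A u v = A v u) (a b : ι) (l : List ι)
    (h : (a :: b :: l).Nodup) : haf A (a :: b :: l) = haf A (b :: a :: l) := by
  have h1 := List.nodup_cons.1 h
  have hb := List.nodup_cons.1 h1.2
  have ha : a ∉ l := fun h' => h1.1 (List.mem_cons_of_mem _ h')
  have hal : (a :: l).Nodup := List.nodup_cons.2 ⟨ha, hb.2⟩
  have key : ∀ a b : ι, ∑ c ∈ l.toFinset, A a c * haf A (b :: l.erase c) =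
      ∑ c ∈ l.toFinset, ∑ d ∈ l.toFinset,
        if c = d then 0 else A a c * (A b d * haf A ((l.erase c).erase d)) := by
    intro a b
    refine Finset.sum_congr rfl fun c hc => ?_
    rw [haf_cons A b _ (hb.2.erase c), Finset.mul_sum]
    have : (l.erase c).toFinset = l.toFinset.filter fun d => ¬ c = d := by
      ext d
      simp only [List.mem_toFinset, Finset.mem_filter, hb.2.mem_erase_iff]
      constructor
      · rintro ⟨h1, h2⟩
        exact ⟨h2, fun h => h1 h.symm⟩
      · rintro ⟨h1, h2⟩
        exact ⟨fun h => h2 h.symm, h1⟩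
    rw [this, Finset.sum_filter]
    refine Finset.sum_congr rfl fun d _ => ?_
    by_cases hcd : c = d
    · simp [hcd]
    · simp [hcd]
  rw [haf_cons_cons A a b l h1.2, haf_cons_cons A b a l hal, hA a b, key a b, key b a]
  congr 1
  rw [Finset.sum_comm]
  refine Finset.sum_congr rfl fun c _ => Finset.sum_congr rfl fun d _ => ?_
  by_cases hcd : c = d
  · simp [hcd]
  · rw [if_neg hcd, if_neg (fun h => hcd h.symm), List.erase_comm]
    ring

theorem haf_perm (A : ι → ι → ℝ) (hA : ∀ u v, A u v = A v u) : ∀ (n : ℕ) (l l' : List ι),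
    l.length = n → l.Nodup → l.Perm l' → haf A l = haf A l' := by
  intro n
  induction n using Nat.strong_induction_on with
  | _ n ih =>
    intro l l' hl hn hp
    induction hp with
    | nil => rfl
    | @cons a l l' h _ =>
      have hn' := List.nodup_cons.1 hn
      rw [haf_cons A a l hn'.2, haf_cons A a l' (h.nodup_iff.1 hn'.2)]
      have : l.toFinset = l'.toFinset := List.toFinset_eq_of_perm _ _ h
      rw [this]
      refine Finset.sum_congr rfl fun b hb => ?_
      have hb' : b ∈ l := h.mem_iff.2 (List.mem_toFinset.1 hb)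
      congr 1
      refine ih (l.erase b).length ?_ _ _ rfl (hn'.2.erase b) (h.erase b)
      rw [List.length_erase_of_mem hb']
      simp only [List.length_cons] at hl
      omega
    | swap a b l => exact haf_swap A hA _ _ _ hn
    | trans h1 h2 ih1 ih2 =>
      rw [ih1 hl hn, ih2 (h1.length_eq ▸ hl) (h1.nodup_iff.1 hn)]

/-- the sum over the partners of `a` other than `b`. -/
def tl (A : ι → ι → ℝ) (a b : ι) (l : List ι) : ℝ :=
  ∑ c ∈ l.toFinset, A a c * haf A (b :: l.erase c)

theorem haf_tl (A : ι → ι → ℝ) (a b : ι) (l : List ι) (h : (b :: l).Nodup) :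
    haf A (a :: b :: l) = A a b * haf A l + tl A a b l := haf_cons_cons A a b l h

theorem tl_congr (A A' : ι → ι → ℝ) (a b : ι) (l : List ι) (h : (b :: l).Nodup)
    (h1 : ∀ c ∈ l, A a c = A' a c)
    (h2 : ∀ u ∈ b :: l, ∀ v ∈ b :: l, u ≠ v → A u v = A' u v) : tl A a b l = tl A' a b l := by
  unfold tl
  have hb := List.nodup_cons.1 h
  refine Finset.sum_congr rfl fun c hc => ?_
  have hc' : c ∈ l := List.mem_toFinset.1 hc
  rw [h1 c hc']
  congr 1
  have hsub : ∀ u ∈ b :: l.erase c, u ∈ b :: l := by
    intro u hu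
    rw [List.mem_cons] at hu ⊢
    rcases hu with hu | hu
    · exact Or.inl hu
    · exact Or.inr (List.mem_of_mem_erase hu)
  refine haf_congr _ _ _ _ rfl ?_ ?_
  · rw [List.nodup_cons]
    exact ⟨fun h => hb.1 (List.mem_of_mem_erase h), hb.2.erase c⟩
  · intro u hu v hv huv
    exact h2 u (hsub u hu) v (hsub v hv) huv

/-! ### the legs -/

theorem mem_legs (k : ℕ) (u : Fin k × Bool) : u ∈ legs k := by
  unfold legs
  rw [List.mem_flatMap]
  refine ⟨u.1, List.mem_finRange _, ?_⟩
  rcases u with ⟨r, b⟩
  cases b <;> simp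

theorem nodup_legs (k : ℕ) : (legs k).Nodup := by
  unfold legs
  rw [List.nodup_flatMap]
  refine ⟨fun r _ => by simp, ?_⟩
  refine List.Pairwise.imp ?_ (List.nodup_finRange k)
  intro r s hrs
  simp only [Function.onFun, List.disjoint_left]
  intro u hu hv
  simp only [List.mem_cons, List.not_mem_nil, or_false] at hu hv
  apply hrs
  rcases hu with rfl | rfl <;> rcases hv with h | h <;> simpa using congrArg Prod.fst h

/-- the legs of the fields in `S`. -/
def lg (k : ℕ) (S : Finset (Fin k)) : List (Fin k × Bool) := (legs k).filter fun u => u.1 ∈ S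

theorem mem_lg {k : ℕ} {S : Finset (Fin k)} {u : Fin k × Bool} : u ∈ lg k S ↔ u.1 ∈ S := by
  unfold lg
  simp [List.mem_filter, mem_legs]

theorem nodup_lg {k : ℕ} {S : Finset (Fin k)} : (lg k S).Nodup := (nodup_legs k).filter _

theorem lg_univ (k : ℕ) : lg k Finset.univ = legs k := by
  unfold lg
  simp

theorem lg_perm {k : ℕ} {S : Finset (Fin k)} {r : Fin k} (hr : r ∈ S) :
    (lg k S).Perm ((r, false) :: (r, true) :: lg k (S.erase r)) := by
  have hnd : ((r, false) :: (r, true) :: lg k (S.erase r)).Nodup := by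
    rw [List.nodup_cons, List.nodup_cons]
    refine ⟨?_, ?_, nodup_lg⟩
    · simp [mem_lg]
    · simp [mem_lg]
  rw [List.perm_ext_iff_of_nodup nodup_lg hnd]
  rintro ⟨s, b⟩
  simp only [List.mem_cons, mem_lg, Prod.mk.injEq, Finset.mem_erase]
  by_cases hs : s = r
  · subst hs
    cases b <;> simp [hr]
  · simp [hs]

/-- the entries inside the fields of `D` are removed. -/
def rem {k : ℕ} (A : Fin k × Bool → Fin k × Bool → ℝ) (D : Finset (Fin k)) :
    Fin k × Bool → Fin k × Bool → ℝ :=
  fun u v => if u.1 = v.1 ∧ u.1 ∈ D then 0 else A u v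

theorem rem_symm {k : ℕ} (A : Fin k × Bool → Fin k × Bool → ℝ) (hA : ∀ u v, A u v = A v u)
    (D : Finset (Fin k)) (u v : Fin k × Bool) : rem A D u v = rem A D v u := by
  unfold rem
  by_cases h : u.1 = v.1
  · rw [hA u v]
    simp only [h]
  · rw [if_neg (fun h' => h h'.1), if_neg (fun h' => h h'.1.symm), hA u v]

theorem step {k : ℕ} (A : Fin k × Bool → Fin k × Bool → ℝ) (hA : ∀ u v, A u v = A v u)
    (D S : Finset (Fin k)) (r : Fin k) (hr : r ∈ S) (hD : r ∉ D) :
    haf (rem A (insert r D)) (lg k S) = haf (rem A D) (lg k S) +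
      -A (r, false) (r, true) * haf (rem A D) (lg k (S.erase r)) := by
  have hperm := lg_perm hr
  have hnd : ((r, false) :: (r, true) :: lg k (S.erase r)).Nodup :=
    hperm.nodup_iff.1 nodup_lg
  rw [haf_perm _ (rem_symm A hA _) _ _ _ rfl nodup_lg hperm,
    haf_perm _ (rem_symm A hA D) _ _ _ rfl nodup_lg hperm,
    haf_tl _ _ _ _ (List.nodup_cons.1 hnd).2, haf_tl _ _ _ _ (List.nodup_cons.1 hnd).2]
  have e1 : rem A (insert r D) (r, false) (r, true) = 0 := by
    simp [rem]
  have e2 : rem A D (r, false) (r, true) = A (r, false) (r, true) := by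
    simp [rem, hD]
  have e3 : ∀ u v : Fin k × Bool, ¬ (u.1 = r ∧ v.1 = r) → rem A (insert r D) u v = rem A D u v := by
    intro u v h
    unfold rem
    by_cases huv : u.1 = v.1
    · have hur : u.1 ≠ r := fun h' => h ⟨h', huv ▸ h'⟩
      simp [huv, Finset.mem_insert, (huv ▸ hur : v.1 ≠ r)]
    · rw [if_neg (fun h' => huv h'.1), if_neg (fun h' => huv h'.1)]
  have e4 : tl (rem A (insert r D)) (r, false) (r, true) (lg k (S.erase r)) =
      tl (rem A D) (r, false) (r, true) (lg k (S.erase r)) := by
    have hmem : ∀ u ∈ lg k (S.erase r), u.1 ≠ r := by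
      intro u hu
      exact (Finset.mem_erase.1 (mem_lg.1 hu)).1
    refine tl_congr _ _ _ _ _ (List.nodup_cons.1 hnd).2 ?_ ?_
    · intro c hc
      exact e3 _ _ (fun h => hmem c hc h.2)
    · intro u hu v hv huv
      apply e3
      rintro ⟨h1, h2⟩
      rw [List.mem_cons] at hu hv
      rcases hu with rfl | hu
      · rcases hv with rfl | hv
        · exact huv rfl
        · exact hmem _ hv h2
      · exact hmem _ hu h1
  rw [e1, e2, e4]
  ring

theorem expand {k : ℕ} (A : Fin k × Bool → Fin k × Bool → ℝ) (hA : ∀ u v, A u v = A v u)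
    (D : Finset (Fin k)) : ∀ S : Finset (Fin k), D ⊆ S →
    haf (rem A D) (lg k S) = ∑ T ∈ D.powerset, (∏ r ∈ T, -A (r, false) (r, true)) *
      haf A (lg k (S \ T)) := by
  induction D using Finset.induction_on with
  | empty =>
    intro S _
    have : rem A ∅ = A := by
      funext u v
      simp [rem]
    simp [this]
  | @insert r D hr ih =>
    intro S hS
    have hrS : r ∈ S := hS (Finset.mem_insert_self _ _)
    have hDS : D ⊆ S := fun x hx => hS (Finset.mem_insert_of_mem hx)
    have hDS' : D ⊆ S.erase r := by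
      intro x hx
      rw [Finset.mem_erase]
      exact ⟨fun h => hr (h ▸ hx), hDS hx⟩
    rw [step A hA D S r hrS hr, ih S hDS, ih _ hDS', Finset.sum_powerset_insert hr,
      Finset.mul_sum]
    congr 1
    refine Finset.sum_congr rfl fun T hT => ?_
    have hrT : r ∉ T := fun h => hr (Finset.mem_powerset.1 hT h)
    have hST : S.erase r \ T = S \ insert r T := by
      ext x
      simp only [Finset.mem_sdiff, Finset.mem_erase, Finset.mem_insert, not_or]
      tauto
    rw [Finset.prod_insert hrT, mul_assoc, hST]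

theorem t_W2 : S_W2 := by
  intro k A hA
  have h := expand A hA Finset.univ Finset.univ (Finset.Subset.refl _)
  have hw : wick k A = haf (rem A Finset.univ) (lg k Finset.univ) := by
    unfold wick
    rw [lg_univ]
    congr 1
    funext u v
    simp [rem]
  rw [hw, h, Finset.powerset_univ]
  refine Finset.sum_bij (fun S _ => Finset.univ \ S) ?_ ?_ ?_ ?_
  · intro S _
    exact Finset.mem_univ _
  · intro S _ T _ hST
    have : (Finset.univ \ (Finset.univ \ S) : Finset (Fin k)) = Finset.univ \ (Finset.univ \ T) := by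
      exact congrArg (fun U => Finset.univ \ U) hST
    simpa using this
  · intro T _
    exact ⟨Finset.univ \ T, Finset.mem_univ _, by simp⟩
  · intro S _
    have : (Finset.univ \ (Finset.univ \ S) : Finset (Fin k)) = S := by simp
    rw [this]
    rfl


end Pool.Agent.W270.SCH
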